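import Pool.Agent.Q192.PK.ManE

set_option autoImplicit false

open scoped Manifold ContDiff Topology Pointwise
open Set Filter

namespace Pool.Agent.Results.MP_5c499f_an.OneBundleDistortionGrowth

open Pool.Agent.H721R2 Pool.Agent.H789R2.AN Pool.Agent.TH289.K Pool.Agent.Q192.PI
  Pool.Agent.Q192.PI.B Pool.Agent.Q192.PG Pool.Agent.Q192.PK

/-- Let `f` be a `C¹` Anosov diffeomorphism of a closed connected manifold `M` modelled on `E`, and
let `N` be a continuous norm on `TM`. Suppose one of the following.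
* (Subexponential distortion) One of the two bundles, `V`, has rank at least two and `Dfⁿ` has
  subexponential distortion on it: for every `κ > 1` there is `C` with
  `‖Dfⁿ v‖ / ‖v‖ ≤ C κⁿ ‖Dfⁿ w‖ / ‖w‖` for all `n ≥ 0`, all points `x` and all `v, w ∈ V x`; or `f` is
  `C²` and at each periodic point `p = fᵏ p` all eigenvalues of `D(fᵏ)` on `V p` have the same
  modulus, which may depend on `p` (`OneModulus`). Nothing is assumed on the other bundle.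
* (Small distortion) `C⁻¹ μ₁ⁿ ≤ ‖Dfⁿ v‖ / ‖v‖ ≤ C μ₂ⁿ` on `Es`, `C⁻¹ l₁ⁿ ≤ ‖Dfⁿ v‖ / ‖v‖ ≤ C l₂ⁿ`
  on `Eu`, the distortion of `Dfⁿ` on `Eu`, of rank `D ≥ 2`, is at most `C₁ κⁿ`, and
  `2 D log κ (log μ₂ - log μ₁) < (-log μ₂) log l₁`.

Then `f` is topologically transitive, it has global product structure, there is a surjective covering
map from `E` onto `M`, and the fundamental group of `M` has polynomial growth: there is an exponent
`d` such that, for every finite set `S` of elements of `π₁(M, x)`, the number of products of `n`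
elements of `S` is at most `C (n + 1) ^ d`, `C = C(S)`. -/
theorem result (E : Type*) [NormedAddCommGroup E] [NormedSpace ℝ E] [FiniteDimensional ℝ E]
    (M : Type*) [TopologicalSpace M] [T2Space M] [CompactSpace M] [ConnectedSpace M]
    [ChartedSpace E M] [IsManifold 𝓘(ℝ, E) ∞ M] (f : Diffeomorph 𝓘(ℝ, E) 𝓘(ℝ, E) M M 1)
    (Es Eu : ∀ x : M, Submodule ℝ (TangentSpace 𝓘(ℝ, E) x)) (hA : IsAnosov f Es Eu)
    (N : TangentBundle 𝓘(ℝ, E) M → ℝ) (hN : IsTangentNorm N)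
    (h : ((∀ x, 2 ≤ Module.finrank ℝ (Eu x)) ∧
        ((∀ κ : ℝ, 1 < κ → ∃ C : ℝ, DistortionOn f N Eu C κ) ∨
          (ContMDiff 𝓘(ℝ, E) 𝓘(ℝ, E) 2 f ∧ ContMDiff 𝓘(ℝ, E) 𝓘(ℝ, E) 2 f.symm ∧
            OneModulus f Eu))) ∨
      ((∀ x, 2 ≤ Module.finrank ℝ (Es x)) ∧
        ((∀ κ : ℝ, 1 < κ → ∃ C : ℝ, DistortionOn f N Es C κ) ∨
          (ContMDiff 𝓘(ℝ, E) 𝓘(ℝ, E) 2 f ∧ ContMDiff 𝓘(ℝ, E) 𝓘(ℝ, E) 2 f.symm ∧
            OneModulus f Es))) ∨
      ∃ (C μ₁ μ₂ l₁ l₂ C₁ κ : ℝ) (D : ℕ), 0 < C ∧ 0 < μ₁ ∧ μ₁ ≤ μ₂ ∧ μ₂ < 1 ∧ 1 < l₁ ∧ l₁ ≤ l₂ ∧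
        RatesOn f N Es C μ₁ μ₂ ∧ RatesOn f N Eu C l₁ l₂ ∧ 2 ≤ D ∧
        (∀ x, Module.finrank ℝ (Eu x) = D) ∧ 1 ≤ κ ∧ DistortionOn f N Eu C₁ κ ∧
        2 * D * Real.log κ * (Real.log μ₂ - Real.log μ₁) < -Real.log μ₂ * Real.log l₁) :
    TopTransitive f ∧ GPS f.toHomeomorph ∧
      (∃ π : E → M, IsCoveringMap π ∧ Function.Surjective π) ∧
      ∃ d : ℕ, ∀ (x : M) (S : Set (FundamentalGroup M x)), S.Finite →
        ∃ C : ℕ, ∀ n : ℕ, (S ^ n).ncard ≤ C * (n + 1) ^ d := by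
  refine man_all f Es Eu hA N hN ?_
  rcases h with h | h | h
  · exact Or.inl h
  · exact Or.inr (Or.inl h)
  · exact Or.inr (Or.inr (Or.inr (Or.inr h)))

end Pool.Agent.Results.MP_5c499f_an.OneBundleDistortionGrowth
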