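import Pool.Agent.Q130.UQ.Main
import Pool.Agent.H147R2.RI.JF

/-!
# MP_5c499f_an: Anosov diffeomorphisms that are quasiconformal on one bundle
-/

set_option autoImplicit false

open scoped Manifold ContDiff Topology Bundle
open Set Filter Bundle

namespace Pool.Agent.Results.MP_5c499f_an.OneQuasiconformalBundleToral

open Pool.Agent.H721R2 Pool.Agent.H789R2.AN Pool.Agent.H779R2.An
  Pool.Agent.H779R2.To Pool.Agent.H147R2.RI

/-- The return maps `D(fᵏ)`, `fᵏ(p) = p`, `k ≥ 1`, have uniformly bounded distortion on the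
subspaces `V p`: for some constant `K`, `‖D(fᵏ) v‖ / ‖v‖ ≤ K ‖D(fᵏ) w‖ / ‖w‖` for all such `k`, `p`
and all `v, w ∈ V p` (written without denominators). Only periodic points are involved. -/
def PeriodicDistortion {E : Type*} [NormedAddCommGroup E] [NormedSpace ℝ E]
    {M : Type*} [TopologicalSpace M] [ChartedSpace E M] (f : M → M)
    (N : TangentBundle 𝓘(ℝ, E) M → ℝ) (V : ∀ x : M, Submodule ℝ (TangentSpace 𝓘(ℝ, E) x)) : Prop :=
  ∃ K : ℝ, ∀ (k : ℕ) (p : M), 1 ≤ k → f^[k] p = p → ∀ v ∈ V p, ∀ w ∈ V p,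
    N (tangentMap 𝓘(ℝ, E) 𝓘(ℝ, E) (f^[k]) ⟨p, v⟩) * N ⟨p, w⟩ ≤
      K * (N (tangentMap 𝓘(ℝ, E) 𝓘(ℝ, E) (f^[k]) ⟨p, w⟩) * N ⟨p, v⟩)

/-- **Classification of the Anosov diffeomorphisms that are quasiconformal on one bundle.**

Let `f` be a `C²` Anosov diffeomorphism of a closed connected smooth manifold `M`, with splitting
`TM = Es ⊕ Eu` of ranks `ds, du ≥ 2`.  Suppose that the return maps `D(fᵏ)(p)`, `fᵏ(p) = p`, have
uniformly bounded distortion on ONE of the two bundles (`PeriodicDistortion`; this holds if `f` is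
uniformly quasiconformal on it).  Nothing is assumed on the other bundle, and no transitivity,
recurrence or invariant measure is assumed.

Then `f` is topologically conjugate to a hyperbolic infra-toral automorphism, in particular finitely
covered by a hyperbolic toral automorphism: there are a matrix `A` in `GL(m, ℤ)` without eigenvalues
of modulus one and a covering map `P : ℝᵐ → M` with `f ∘ P = P ∘ A`, such that `P` is
`ℤᵐ`-periodic, every fibre of `P` is a finite union of `ℤᵐ`-orbits, and the deck transformations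
of `P` (which are transitive on the fibres) are affine maps `x ↦ B x + c` with `B ∈ GL(m, ℤ)`. -/
theorem result (E : Type*) [NormedAddCommGroup E] [NormedSpace ℝ E] [FiniteDimensional ℝ E]
    (M : Type*) [TopologicalSpace M] [T2Space M] [CompactSpace M] [ConnectedSpace M]
    [ChartedSpace E M] [IsManifold 𝓘(ℝ, E) ∞ M] (f : Diffeomorph 𝓘(ℝ, E) 𝓘(ℝ, E) M M 1)
    (hf2 : ContMDiff 𝓘(ℝ, E) 𝓘(ℝ, E) 2 f) (hf2' : ContMDiff 𝓘(ℝ, E) 𝓘(ℝ, E) 2 f.symm)
    (Es Eu : ∀ x : M, Submodule ℝ (TangentSpace 𝓘(ℝ, E) x)) (hA : IsAnosov f Es Eu)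
    (N : TangentBundle 𝓘(ℝ, E) M → ℝ) (hN : IsTangentNorm N)
    (ds du : ℕ) (h2s : 2 ≤ ds) (h2u : 2 ≤ du) (hds : ∀ x, Module.finrank ℝ (Es x) = ds)
    (hdu : ∀ x, Module.finrank ℝ (Eu x) = du)
    (hP : PeriodicDistortion f N Eu ∨ PeriodicDistortion f N Es) :
    ∃ (m : ℕ) (A : Matrix (Fin m) (Fin m) ℤ) (P : (Fin m → ℝ) → M),
      IsUnit A.det ∧ HypMat A ∧ IsCoveringMap P ∧ Function.Surjective P ∧
      (∀ x, f (P x) = P ((A.map (Int.cast : ℤ → ℝ)).mulVec x)) ∧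
      (∀ (x : Fin m → ℝ) (z : Fin m → ℤ), P (x + fun i => (z i : ℝ)) = P x) ∧
      (∀ a, ∃ S : Finset (Fin m → ℝ), ∀ x, P x = a → ∃ s ∈ S, ∃ z : Fin m → ℤ,
        x = s + fun i => (z i : ℝ)) ∧
      ∀ x y, P x = P y → ∃ (B : Matrix (Fin m) (Fin m) ℤ) (c : Fin m → ℝ), IsUnit B.det ∧
        y = (B.map (Int.cast : ℤ → ℝ)).mulVec x + c ∧
        ∀ w, P ((B.map (Int.cast : ℤ → ℝ)).mulVec w + c) = P w := by
  have htr : TopTransitive f := by
    refine Pool.Agent.Q130.UQ.main_per E M f hf2 hf2' Es Eu hA N hN ds du hds hdu ?_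
    rcases hP with h | h
    · exact Or.inl ⟨h2u, h⟩
    · exact Or.inr ⟨h2s, h⟩
  obtain ⟨m, A, P, h1, h2, h3, h4, h5, h6, h7⟩ :=
    (Pool.Agent.Q130.AN.main_class E M f hf2 hf2' Es Eu hA N hN ds du h2s h2u hds hdu hP htr).1
  exact ⟨m, A, P, h1, h2, h3, h4, h5, h6, fib_fin P h3 h6, h7⟩

end Pool.Agent.Results.MP_5c499f_an.OneQuasiconformalBundleToral
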