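import Pool.Agent.Q192.PK.ManE

set_option autoImplicit false

open scoped Manifold ContDiff Topology Pointwise
open Set Filter

namespace Pool.Agent.Results.MP_5c499f_an.PinchedRatesGrowth

open Pool.Agent.H721R2 Pool.Agent.H789R2.AN Pool.Agent.TH289.K Pool.Agent.Q192.PI
  Pool.Agent.Q192.PI.B Pool.Agent.Q192.PG Pool.Agent.Q192.PK

/-- Let `f` be a `C¹` Anosov diffeomorphism of a closed connected manifold `M` modelled on `E`, let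
`N` be a continuous norm on `TM` and let `0 < μ₁ ≤ μ₂ < 1 < l₁ ≤ l₂` with
`log l₁ / log l₂ + log μ₂ / log μ₁ > 1`. Suppose one of the following.
* (Uniform rates) `C⁻¹ μ₁ⁿ ≤ ‖Dfⁿ v‖ / ‖v‖ ≤ C μ₂ⁿ` on `Es`, `C⁻¹ l₁ⁿ ≤ ‖Dfⁿ v‖ / ‖v‖ ≤ C l₂ⁿ` on `Eu`.
* (Periodic rates) `f` is `C²` and at each periodic point `p = fᵏ p` the moduli of the eigenvalues of
  `D(fᵏ)` are in `[μ₁ᵏ, μ₂ᵏ]` on `Es p` and in `[l₁ᵏ, l₂ᵏ]` on `Eu p`.

Then `f` is topologically transitive, it has global product structure, there is a surjective covering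
map from `E` onto `M`, and the fundamental group of `M` has polynomial growth: there is an exponent
`d` such that, for every finite set `S` of elements of `π₁(M, x)`, the number of products of `n`
elements of `S` is at most `C (n + 1) ^ d`, `C = C(S)`. -/
theorem result (E : Type*) [NormedAddCommGroup E] [NormedSpace ℝ E] [FiniteDimensional ℝ E]
    (M : Type*) [TopologicalSpace M] [T2Space M] [CompactSpace M] [ConnectedSpace M]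
    [ChartedSpace E M] [IsManifold 𝓘(ℝ, E) ∞ M] (f : Diffeomorph 𝓘(ℝ, E) 𝓘(ℝ, E) M M 1)
    (Es Eu : ∀ x : M, Submodule ℝ (TangentSpace 𝓘(ℝ, E) x)) (hA : IsAnosov f Es Eu)
    (N : TangentBundle 𝓘(ℝ, E) M → ℝ) (hN : IsTangentNorm N)
    (μ₁ μ₂ l₁ l₂ : ℝ) (hμ₁ : 0 < μ₁) (hμ : μ₁ ≤ μ₂) (hμ₂ : μ₂ < 1) (hl₁ : 1 < l₁) (hl : l₁ ≤ l₂)
    (hp : 1 < Real.log l₁ / Real.log l₂ + Real.log μ₂ / Real.log μ₁)
    (h : (∃ C : ℝ, 0 < C ∧ RatesOn f N Es C μ₁ μ₂ ∧ RatesOn f N Eu C l₁ l₂) ∨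
      (ContMDiff 𝓘(ℝ, E) 𝓘(ℝ, E) 2 f ∧ ContMDiff 𝓘(ℝ, E) 𝓘(ℝ, E) 2 f.symm ∧
        PeriodicRates f Es μ₁ μ₂ ∧ PeriodicRates f Eu l₁ l₂)) :
    TopTransitive f ∧ GPS f.toHomeomorph ∧
      (∃ π : E → M, IsCoveringMap π ∧ Function.Surjective π) ∧
      ∃ d : ℕ, ∀ (x : M) (S : Set (FundamentalGroup M x)), S.Finite →
        ∃ C : ℕ, ∀ n : ℕ, (S ^ n).ncard ≤ C * (n + 1) ^ d := by
  refine man_all f Es Eu hA N hN ?_
  rcases h with ⟨C, hC, h1, h2⟩ | ⟨hf, hf', h1, h2⟩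
  · exact Or.inr (Or.inr (Or.inr (Or.inl
      ⟨C, μ₁, μ₂, l₁, l₂, hC, hμ₁, hμ, hμ₂, hl₁, hl, h1, h2, hp⟩)))
  · exact Or.inr (Or.inr (Or.inl
      ⟨hf, hf', μ₁, μ₂, l₁, l₂, hμ₁, hμ, hμ₂, hl₁, hl, h1, h2, hp⟩))

end Pool.Agent.Results.MP_5c499f_an.PinchedRatesGrowth
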