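import Pool.Agent.Q192.PT.Fin

set_option autoImplicit false

open scoped Manifold ContDiff Topology Pointwise
open Set Filter

namespace Pool.Agent.Results.MP_5c499f_an.TwoSidedPolynomialGrowth

open Pool.Agent.H721R2 Pool.Agent.H789R2.AN Pool.Agent.TH289.K Pool.Agent.Q192.PI
  Pool.Agent.Q192.PI.B Pool.Agent.Q192.PG Pool.Agent.Q192.PK Pool.Agent.Q192.PT

/-- Let `f` be a `C¹` Anosov diffeomorphism of a closed connected manifold `M` modelled on `E` such
that every nonempty open set `U` meets `fⁿ(U)` for some `n ≥ 1` (for example, `f` is transitive or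
preserves a volume), and let `N` be a continuous norm on `TM`. Let `D, D' ≥ 2` be the ranks of `Eu`
and `Es` and let `0 < μ < 1 < l`, `κ, κ' ≥ 1`. Suppose one of the following.
* (Uniform bounds) `‖Dfⁿ v‖ ≤ C μⁿ ‖v‖` on `Es` and `lⁿ ‖v‖ ≤ C ‖Dfⁿ v‖` on `Eu`, the distortion of
  `Dfⁿ` at each point is at most `C κⁿ` on `Eu` and at most `C κ'ⁿ` on `Es`, and
  `4 D D' log κ log κ' < (-log μ) log l`.
* (Periodic points) `f` is `C²`, at each periodic point `p = fᵏ p` the eigenvalues of `D(fᵏ)` have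
  modulus at most `μᵏ` on `Es p` and at least `lᵏ` on `Eu p`, the quotient of the moduli of two
  eigenvalues is at most `κᵏ` on `Eu p` and at most `κ'ᵏ` on `Es p`, and
  `4 D (D - 1) D' (D' - 1) log κ log κ' < (-log μ) log l`.

No condition is put on the strong rates (upper bounds on `Eu`, lower bounds on `Es`).
Then `f` is topologically transitive, it has global product structure, there is a surjective covering
map from `E` onto `M`, and the fundamental group of `M` has polynomial growth: there is an exponent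
`d` such that, for every finite set `S` of elements of `π₁(M, x)`, the number of products of `n`
elements of `S` is at most `C (n + 1) ^ d`, `C = C(S)`. -/
theorem result (E : Type*) [NormedAddCommGroup E] [NormedSpace ℝ E] [FiniteDimensional ℝ E]
    (M : Type*) [TopologicalSpace M] [T2Space M] [CompactSpace M] [ConnectedSpace M]
    [ChartedSpace E M] [IsManifold 𝓘(ℝ, E) ∞ M] (f : Diffeomorph 𝓘(ℝ, E) 𝓘(ℝ, E) M M 1)
    (Es Eu : ∀ x : M, Submodule ℝ (TangentSpace 𝓘(ℝ, E) x)) (hA : IsAnosov f Es Eu)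
    (hNW : NWall f) (N : TangentBundle 𝓘(ℝ, E) M → ℝ) (hN : IsTangentNorm N)
    (D D' : ℕ) (hD : 2 ≤ D) (hD' : 2 ≤ D') (hrk : ∀ x, Module.finrank ℝ (Eu x) = D)
    (hrk' : ∀ x, Module.finrank ℝ (Es x) = D')
    (μ l κ κ' : ℝ) (hμ0 : 0 < μ) (hμ : μ < 1) (hl : 1 < l) (hκ : 1 ≤ κ) (hκ' : 1 ≤ κ')
    (h : (4 * D * D' * Real.log κ * Real.log κ' < -Real.log μ * Real.log l ∧
        ∃ C : ℝ, UpperRate f N Es C μ ∧ LowerRate f N Eu C l ∧ DistortionOn f N Eu C κ ∧
          DistortionOn f N Es C κ') ∨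
      (4 * D * (D - 1) * D' * (D' - 1) * Real.log κ * Real.log κ' <
          -Real.log μ * Real.log l ∧
        ContMDiff 𝓘(ℝ, E) 𝓘(ℝ, E) 2 f ∧ ContMDiff 𝓘(ℝ, E) 𝓘(ℝ, E) 2 f.symm ∧
        PeriodicUpper f Es μ ∧ PeriodicLower f Eu l ∧ PeriodicQuotients f Eu κ ∧
        PeriodicQuotients f Es κ')) :
    TopTransitive f ∧ GPS f.toHomeomorph ∧
      (∃ π : E → M, IsCoveringMap π ∧ Function.Surjective π) ∧
      ∃ d : ℕ, ∀ (x : M) (S : Set (FundamentalGroup M x)), S.Finite →
        ∃ C : ℕ, ∀ n : ℕ, (S ^ n).ncard ≤ C * (n + 1) ^ d :=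
  man_two_fin f Es Eu hA hNW N hN D D' hD hD' hrk hrk' μ l κ κ' hμ0 hμ hl hκ hκ' h

end Pool.Agent.Results.MP_5c499f_an.TwoSidedPolynomialGrowth
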